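import Pool.Agent.H123.SUDG.Sphere

/-!
# MP_c17089_co: a spherical uniform disk graph which is not a disk graph

The graph has 80 vertices. They are the images of the vectors `(1,1,1)`, `(0,1,4)`, `(0,3,1)`,
`(7,7,1)`, `(9,3,5)` under cyclic permutations of the coordinates and all sign changes, projected to
the unit sphere; two of them are joined when their angle is acute (no two are orthogonal). This is
the intersection graph of the spherical disks of radius `π / 4` around them.

If the graph were a disk graph, with centers `p v` in the plane, then two edges `ab`, `cd` with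
`a`, `c` not adjacent and `b`, `d` not adjacent could not cross (triangle inequality). The odd map
`v ↦ p v - p (-v)` on the vertices of a centrally symmetric triangulation of the sphere has a face
whose image contains `0` (Borsuk-Ulam, by rotation numbers), so for some face `abc` the planar
triangle `abc` contains the point `p (-a)` or conversely. For every `y` adjacent to `a`, `b`, `c` one
of the triangles `aby`, `bcy`, `cay` then contains `p (-y)`, and two such `y` on the same side are
adjacent; hence the common neighbourhood of each face would be covered by three cliques, which is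
false by a direct check.
-/

set_option autoImplicit false

namespace Pool.Agent.Results.MP_c17089_co.SphericalNotDisk

open Pool.Agent.H123.SUDG

/-- `G` is a disk graph: it is the intersection graph of a family of closed disks of positive radii
in the Euclidean plane. -/
def IsDiskGraph {V : Type} (G : SimpleGraph V) : Prop :=
  ∃ (c : V → EuclideanSpace ℝ (Fin 2)) (r : V → ℝ), (∀ v, 0 < r v) ∧
    ∀ u v, u ≠ v →
      (G.Adj u v ↔ (Metric.closedBall (c u) (r u) ∩ Metric.closedBall (c v) (r v)).Nonempty)

/-- the spherical disk of center `c` and radius `r`: the points of the unit sphere `S²` at geodesic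
distance (angle) at most `r` from `c` -/
def sphericalDisk (c : Metric.sphere (0 : EuclideanSpace ℝ (Fin 3)) 1) (r : ℝ) :
    Set (Metric.sphere (0 : EuclideanSpace ℝ (Fin 3)) 1) :=
  {x | InnerProductGeometry.angle (x : EuclideanSpace ℝ (Fin 3)) (c : EuclideanSpace ℝ (Fin 3)) ≤ r}

/-- `G` is a spherical uniform disk graph: it is the intersection graph of a family of spherical
disks of one common radius `r`, `0 < r < π`. -/
def IsSphericalUniformDiskGraph {V : Type} (G : SimpleGraph V) : Prop :=
  ∃ (r : ℝ) (c : V → Metric.sphere (0 : EuclideanSpace ℝ (Fin 3)) 1), 0 < r ∧ r < Real.pi ∧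
    ∀ u v, u ≠ v → (G.Adj u v ↔ (sphericalDisk (c u) r ∩ sphericalDisk (c v) r).Nonempty)

/-- the graph: acute angles between the 80 directions -/
def G80 : SimpleGraph (Fin 80) where
  Adj u v := u ≠ v ∧ RR u v
  symm := ⟨fun _ _ h => ⟨h.1.symm, RR_symm _ _ h.2⟩⟩
  loopless := ⟨fun _ h => h.1 rfl⟩

theorem G80_spherical : IsSphericalUniformDiskGraph G80 := by
  refine ⟨Real.pi / 4, cen, by positivity, by linarith [Real.pi_pos], ?_⟩
  intro u v huv
  have hu : ‖(cen u : EuclideanSpace ℝ (Fin 3))‖ = 1 := by
    have := (cen u).2
    rwa [mem_sphere_zero_iff_norm] at this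
  have hv : ‖(cen v : EuclideanSpace ℝ (Fin 3))‖ = 1 := by
    have := (cen v).2
    rwa [mem_sphere_zero_iff_norm] at this
  have h1 : G80.Adj u v ↔ RR u v := ⟨fun h => h.2, fun h => ⟨huv, h⟩⟩
  rw [h1, RR_iff_cen, ← quarter _ _ hu hv]
  constructor
  · rintro ⟨z, hz, h2, h3⟩
    exact ⟨⟨z, by rw [mem_sphere_zero_iff_norm]; exact hz⟩, h2, h3⟩
  · rintro ⟨z, h2, h3⟩
    exact ⟨z, by have := z.2; rwa [mem_sphere_zero_iff_norm] at this, h2, h3⟩

theorem G80_not_disk : ¬ IsDiskGraph G80 := by
  rintro ⟨c, r, hr, h⟩
  let φ : EuclideanSpace ℝ (Fin 2) ≃ₗᵢ[ℝ] ℂ := Complex.orthonormalBasisOneI.repr.symm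
  refine no_draw (fun v => φ (c v)) (draw_of_disks (fun v => φ (c v)) r hr ?_)
  intro u v huv
  have h1 : RR u v ↔ G80.Adj u v := ⟨fun h => ⟨huv, h⟩, fun h => h.2⟩
  rw [h1, h u v huv, φ.dist_map, ← Set.not_disjoint_iff_nonempty_inter,
    disjoint_closedBall_closedBall_iff (hr u).le (hr v).le, not_lt]

/-- There is a graph (with 80 vertices) that is a spherical uniform disk graph but not a disk
graph: `SUDG ⊆ DG` is false. -/
theorem result : ∃ G : SimpleGraph (Fin 80), IsSphericalUniformDiskGraph G ∧ ¬ IsDiskGraph G :=
  ⟨G80, G80_spherical, G80_not_disk⟩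

end Pool.Agent.Results.MP_c17089_co.SphericalNotDisk
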